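import Mathlib

set_option autoImplicit false

namespace Pool.Agent.H.MP_718035_al

open Cardinal

lemma card_closure {G : Type} [Group G] (c : Cardinal) (hc : ℵ₀ < c) (S : Set G) (hS : #S < c) :
    #(Subgroup.closure S) < c := by
  have h1 : #(S ∪ S⁻¹ : Set G) < c := by
    refine (mk_union_le _ _).trans_lt (add_lt_of_lt hc.le hS ?_)
    have : (S⁻¹ : Set G) = (fun x => x⁻¹) '' S := by
      ext x; simp [Set.mem_inv]
    rw [this]
    exact mk_image_le.trans_lt hS
  have h2 : #(List (S ∪ S⁻¹ : Set G)) < c := (mk_list_le_max _).trans_lt (max_lt hc h1)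
  refine lt_of_le_of_lt ?_ h2
  have h3 : (Subgroup.closure S : Set G) ⊆
      Set.range (fun l : List (S ∪ S⁻¹ : Set G) => (l.map Subtype.val).prod) := by
    intro x hx
    have : x ∈ Submonoid.closure (S ∪ S⁻¹) := by
      rw [← Subgroup.closure_toSubmonoid]; exact hx
    obtain ⟨l, h4, h5⟩ := Submonoid.exists_list_of_mem_closure this
    refine ⟨l.pmap Subtype.mk h4, ?_⟩
    simp only [List.map_pmap, List.pmap_eq_map, List.map_id']
    exact h5
  exact (mk_le_mk_of_subset h3).trans mk_range_le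

lemma transfinite {G : Type} [Group G] (c : Cardinal) (hc : ℵ₀ < c) (hG : #G ≤ c)
    (Good : G → Prop) (z : G) (hz : ∀ a ∈ Subgroup.closure {z}, Good a)
    (step : ∀ H : Subgroup G, z ∈ H → #H < c → (∀ a ∈ H, Good a) → ∀ g, ∃ h, IsConj g h ∧
      ∀ a ∈ Subgroup.closure (insert h (H : Set G)), Good a) :
    ∃ H : Subgroup G, (∀ a ∈ H, Good a) ∧ ∀ g, ∃ h ∈ H, IsConj g h := by
  classical
  obtain ⟨lo, wf, ho⟩ := Cardinal.exists_ord_eq_type_lt G
  let P : G → Set G → G → Prop := fun g T h => IsConj g h ∧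
    ∀ a ∈ Subgroup.closure (insert h (Subgroup.closure (insert z T) : Set G)), Good a
  let F : G → G := WellFoundedLT.fix (motive := fun _ => G) (fun g r =>
    if h : ∃ h, P g (Set.range (fun y : Set.Iio g => r y.1 y.2)) h then h.choose else g)
  have hF : ∀ g, F g = if h : ∃ h, P g (F '' Set.Iio g) h then h.choose else g := by
    intro g
    have e : Set.range (fun y : Set.Iio g => F y.1) = F '' Set.Iio g := by
      ext x; simp
    rw [← e]
    exact WellFoundedLT.fix_eq _ g
  have U : ∀ T : Set G, (∀ y ∈ T, P y (F '' Set.Iio y) (F y)) →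
      ∀ a ∈ Subgroup.closure (insert z (F '' T)), Good a := by
    intro T hT
    let K : G → Subgroup G := fun y => Subgroup.closure (insert z (F '' Set.Iic y))
    have Kmono : ∀ y y', y ≤ y' → K y ≤ K y' := fun y y' h =>
      Subgroup.closure_mono (Set.insert_subset_insert (Set.image_mono (Set.Iic_subset_Iic.mpr h)))
    have Kz : ∀ y, Subgroup.closure {z} ≤ K y := fun y =>
      Subgroup.closure_mono (by simp)
    have Kg : ∀ y ∈ T, ∀ a ∈ K y, Good a := by
      intro y hy a ha
      apply (hT y hy).2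
      refine (Subgroup.closure_le _).mpr ?_ ha
      rintro x (rfl | ⟨w, hw, rfl⟩)
      · exact Subgroup.subset_closure (Or.inr (Subgroup.subset_closure (Or.inl rfl)))
      · rcases lt_or_eq_of_le (Set.mem_Iic.mp hw) with h | rfl
        · exact Subgroup.subset_closure (Or.inr (Subgroup.subset_closure (Or.inr ⟨w, h, rfl⟩)))
        · exact Subgroup.subset_closure (Or.inl rfl)
    have key : ∀ a ∈ Subgroup.closure (insert z (F '' T)),
        a ∈ Subgroup.closure {z} ∨ ∃ y ∈ T, a ∈ K y := by
      intro a ha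
      induction ha using Subgroup.closure_induction with
      | mem x hx =>
        rcases hx with rfl | ⟨w, hw, rfl⟩
        · exact Or.inl (Subgroup.subset_closure rfl)
        · exact Or.inr ⟨w, hw, Subgroup.subset_closure (Or.inr ⟨w, Set.mem_Iic.mpr le_rfl, rfl⟩)⟩
      | one => exact Or.inl (Subgroup.one_mem _)
      | mul x y _ _ hx hy =>
        rcases hx with hx | ⟨u, hu, hx⟩ <;> rcases hy with hy | ⟨v, hv, hy⟩
        · exact Or.inl (Subgroup.mul_mem _ hx hy)
        · exact Or.inr ⟨v, hv, Subgroup.mul_mem _ (Kz v hx) hy⟩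
        · exact Or.inr ⟨u, hu, Subgroup.mul_mem _ hx (Kz u hy)⟩
        · rcases le_total u v with h | h
          · exact Or.inr ⟨v, hv, Subgroup.mul_mem _ (Kmono u v h hx) hy⟩
          · exact Or.inr ⟨u, hu, Subgroup.mul_mem _ hx (Kmono v u h hy)⟩
      | inv x _ hx =>
        rcases hx with hx | ⟨u, hu, hx⟩
        · exact Or.inl (Subgroup.inv_mem _ hx)
        · exact Or.inr ⟨u, hu, Subgroup.inv_mem _ hx⟩
    intro a ha
    rcases key a ha with h | ⟨y, hy, h⟩
    · exact hz a h
    · exact Kg y hy a h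
  have main : ∀ g, P g (F '' Set.Iio g) (F g) := by
    intro g
    induction g using WellFoundedLT.induction with
    | ind g ih =>
      have h1 := U (Set.Iio g) ih
      have h2 : #(Subgroup.closure (insert z (F '' Set.Iio g))) < c := by
        apply card_closure c hc
        refine mk_insert_le.trans_lt (add_lt_of_lt hc.le ?_ (one_lt_aleph0.trans hc))
        exact mk_image_le.trans_lt ((mk_Iio_lt g ho).trans_le hG)
      have h3 : ∃ h, P g (F '' Set.Iio g) h :=
        step _ (Subgroup.subset_closure (Or.inl rfl)) h2 h1 g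
      rw [hF g, dif_pos h3]
      exact h3.choose_spec
  exact ⟨Subgroup.closure (insert z (F '' Set.univ)), U Set.univ (fun y _ => main y),
    fun g => ⟨F g, Subgroup.subset_closure (Or.inr ⟨g, trivial, rfl⟩), (main g).1⟩⟩

lemma avoid {ι : Type} (hι : #ι < continuum) (P : ι → Polynomial ℝ) (hP : ∀ i, P i ≠ 0) :
    ∃ t : ℝ, ∀ i, (P i).eval t ≠ 0 := by
  by_contra h
  push Not at h
  have h1 : (Set.univ : Set ℝ) ⊆ ⋃ i, {x | (P i).IsRoot x} := by
    intro t _
    obtain ⟨i, hi⟩ := h t
    exact Set.mem_iUnion.mpr ⟨i, hi⟩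
  have h2 : #(⋃ i, {x | (P i).IsRoot x}) ≤ #ι * ℵ₀ := by
    refine mk_iUnion_le_sum_mk.trans ?_
    refine (sum_le_sum _ (fun _ => ℵ₀) (fun i => ?_)).trans (by simp)
    exact (Polynomial.finite_setOfPred_isRoot (hP i)).lt_aleph0.le
  have h3 := (mk_le_mk_of_subset h1).trans h2
  rw [mk_univ_real] at h3
  exact absurd h3 (not_le.mpr (mul_lt_of_lt aleph0_le_continuum hι aleph0_lt_continuum))

end Pool.Agent.H.MP_718035_al
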